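import Pool.Agent.Run7.h96.IX.Stm2
/-! Project IX, piece NB2 (helper617) -/
set_option autoImplicit false

open Finset Filter Topology

namespace Run7.h617.IX
open Run7.h96.IX

theorem pw (s a : ℝ) (hs : 0 ≤ s) (ha : 0 ≤ a) (ha1 : a ≤ 1) : 0 ≤ a ^ s ∧ a ^ s ≤ 1 :=
  ⟨Real.rpow_nonneg ha _, Real.rpow_le_one ha ha1 hs⟩

theorem g_le (s x a b : ℝ) (hs : 0 ≤ s) (hx : 0 ≤ x) (ha : 0 ≤ a) (ha1 : a ≤ 1) (hb : 0 ≤ b)
    (hb1 : b ≤ 1) : g s x a b ≤ 3 + x := by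
  obtain ⟨a0, a1⟩ := pw s a hs ha ha1
  obtain ⟨a2, a3⟩ := pw s (1 - a) hs (by linarith) (by linarith)
  obtain ⟨b0, b1⟩ := pw s b hs hb hb1
  obtain ⟨b2, b3⟩ := pw s (1 - b) hs (by linarith) (by linarith)
  unfold g
  have e1 : (1 - a) ^ s * (1 - b) ^ s ≤ 1 := mul_le_one₀ a3 b2 b3
  have e2 : (1 - a) ^ s * b ^ s ≤ 1 := mul_le_one₀ a3 b0 b1
  have e3 : a ^ s * (1 - b) ^ s ≤ 1 := mul_le_one₀ a1 b2 b3
  have e4 : a ^ s * b ^ s ≤ 1 := mul_le_one₀ a1 b0 b1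
  nlinarith

theorem bdd (s x : ℝ) (hs : 0 ≤ s) (hx : 0 ≤ x) :
    BddAbove {y | ∃ a b : ℝ, 0 ≤ a ∧ a ≤ 1 ∧ 0 ≤ b ∧ b ≤ 1 ∧ y = g s x a b} := by
  refine ⟨3 + x, ?_⟩
  rintro y ⟨a, b, ha, ha1, hb, hb1, rfl⟩
  exact g_le s x a b hs hx ha ha1 hb hb1

theorem ne (s x : ℝ) :
    {y | ∃ a b : ℝ, 0 ≤ a ∧ a ≤ 1 ∧ 0 ≤ b ∧ b ≤ 1 ∧ y = g s x a b}.Nonempty :=
  ⟨_, 0, 0, le_refl _, zero_le_one, le_refl _, zero_le_one, rfl⟩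

theorem t_NB2 : S_NB2 := by
  intro s hs
  refine ⟨?_, ?_, ?_⟩
  · refine le_trans ?_ (le_csSup (bdd s 0 hs le_rfl)
      ⟨0, 0, le_refl _, zero_le_one, le_refl _, zero_le_one, rfl⟩)
    unfold g
    have h0 : 0 ≤ (0:ℝ) ^ s := Real.rpow_nonneg le_rfl _
    rw [sub_zero, Real.one_rpow]
    linarith
  · intro δ hδ
    obtain ⟨y, ⟨a, b, ha, ha1, hb, hb1, rfl⟩, hy⟩ :=
      exists_lt_of_lt_csSup (ne s 0) (show N s 0 - δ < N s 0 by linarith)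
    exact ⟨a, b, ha, ha1, hb, hb1, hy⟩
  · intro x hx
    constructor
    · refine csSup_le (ne s x) ?_
      rintro y ⟨a, b, ha, ha1, hb, hb1, rfl⟩
      have h1 : g s 0 a b ≤ N s 0 := le_csSup (bdd s 0 hs le_rfl) ⟨a, b, ha, ha1, hb, hb1, rfl⟩
      have h2 : g s x a b = g s 0 a b + x * (a ^ s * b ^ s) := by
        unfold g
        ring
      obtain ⟨a0, a1⟩ := pw s a hs ha ha1
      obtain ⟨b0, b1⟩ := pw s b hs hb hb1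
      have e4 : a ^ s * b ^ s ≤ 1 := mul_le_one₀ a1 b0 b1
      nlinarith
    · refine csSup_le (ne s x) ?_
      rintro y ⟨a, b, ha, ha1, hb, hb1, rfl⟩
      exact g_le s x a b hs hx.le ha ha1 hb hb1

end Run7.h617.IX
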