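import Pool.Agent.Run7.h96.IX.Stm3
import Pool.Agent.Run7.h96.IX.LIM

set_option autoImplicit false

open Filter Topology Finset

namespace Run7.h96.IX.T1

open Run7.h96.IX

theorem Phi_le0 (hNB : S_NB) {l s x : ℝ} (hl : 0 < l) (hl1 : l < 1) (hs : 0 ≤ s)
    (hs1 : s < 1) (hx : 0 < x) :
    Phi l 0 ≤ (Real.logb 2 (N s x) - l * Real.logb 2 x + 0) / (1 - s) := by
  unfold Phi
  refine csInf_le ⟨0, ?_⟩ ⟨s, x, hs, hs1, hx, rfl⟩
  rintro y ⟨s', x', h1, h2, h3, rfl⟩
  obtain ⟨_, _, h4⟩ := logN_ge hNB h1 h3 hl hl1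
  exact div_nonneg (by linarith) (by linarith)

theorem lg_div : Tendsto (fun n : ℕ => Real.logb 2 ((n : ℝ) + 1) / n) atTop (𝓝 0) := by
  have h := Real.tendsto_pow_log_div_mul_add_atTop 1 (-1) 1 one_ne_zero
  have h2 : Tendsto (fun n : ℕ => (n : ℝ) + 1) atTop atTop :=
    tendsto_atTop_add_const_right _ _ tendsto_natCast_atTop_atTop
  have h3 := (h.comp h2).div_const (Real.log 2)
  rw [zero_div] at h3
  refine h3.congr fun n => ?_
  simp only [Function.comp, Real.logb, pow_one, one_mul]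
  rw [show (n : ℝ) + 1 + -1 = n by ring]
  rw [div_div, div_div, mul_comm]

theorem t_T1 : S_NB → S_PIG → S_T1 := by
  intro hNB hPIG l Θ ε hl hl1 hΘ hε
  set κ : ℝ := 4 / ε with hκ
  have hκ0 : 0 < κ := by positivity
  have hκε : κ * ε = 4 := by rw [hκ]; field_simp
  have hev : ∀ᶠ n : ℕ in atTop, Real.logb 2 ((n : ℝ) + 1) / n < 1 / κ :=
    lg_div.eventually (gt_mem_nhds (by positivity))
  obtain ⟨n1, hn1⟩ := eventually_atTop.mp hev
  refine ⟨⌈4 + 2 * κ + κ * Θ⌉₊, n1 + 1, fun n hn θ hθ => ?_⟩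
  have hn1' := hn1 n (by omega)
  have hnpos : 1 ≤ n := by omega
  have hn' : (0 : ℝ) < n := by exact_mod_cast hnpos
  obtain ⟨Lg, hLg⟩ : ∃ Lg : ℝ, Lg = Real.logb 2 ((n : ℝ) + 1) := ⟨_, rfl⟩
  rw [← hLg] at hn1'
  have hLg0 : 0 < Lg := by
    rw [hLg]
    exact Real.logb_pos (by norm_num) (by linarith)
  obtain ⟨t, ht⟩ : ∃ t : ℝ, t = κ * Lg / n := ⟨_, rfl⟩
  have ht0 : 0 < t := by rw [ht]; positivity
  have htn : t * n = κ * Lg := by rw [ht]; field_simp
  have ht1 : t < 1 := by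
    rw [div_lt_div_iff₀ hn' hκ0] at hn1'
    rw [ht, div_lt_one hn']
    linarith
  have hx : (0 : ℝ) < (2 : ℝ) ^ (t * θ) := by positivity
  have hlx : Real.logb 2 ((2 : ℝ) ^ (t * θ)) = t * θ :=
    Real.logb_rpow (by norm_num) (by norm_num)
  obtain ⟨hN1, _, _, hNs⟩ := hNB (1 - t) ((2 : ℝ) ^ (t * θ)) (by linarith) hx
  set NN := N (1 - t) ((2 : ℝ) ^ (t * θ)) with hNN
  have hNN0 : 0 < NN := by linarith
  have h2t : (2 : ℝ) ^ (-(t * ε / 4)) < 1 :=
    Real.rpow_lt_one_of_one_lt_of_neg (by norm_num) (by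
      have : 0 < t * ε / 4 := by positivity
      linarith)
  obtain ⟨a, b, ha, ha1, hb, hb1, hg⟩ := hNs (NN * (1 - (2 : ℝ) ^ (-(t * ε / 4))))
    (mul_pos hNN0 (by linarith))
  have hg' : NN * (2 : ℝ) ^ (-(t * ε / 4)) < g (1 - t) ((2 : ℝ) ^ (t * θ)) a b := by linarith
  set gg := g (1 - t) ((2 : ℝ) ^ (t * θ)) a b with hgg
  have hgg0 : 0 < gg := lt_trans (by positivity) hg'
  have hlg : Real.logb 2 NN - t * ε / 4 ≤ Real.logb 2 gg := by
    have h := Real.logb_le_logb_of_le (b := 2) (by norm_num) (by positivity) hg'.le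
    rw [Real.logb_mul hNN0.ne' (by positivity), Real.logb_rpow (by norm_num) (by norm_num)] at h
    linarith
  have hlN : 0 ≤ Real.logb 2 NN := Real.logb_nonneg (by norm_num) hN1
  obtain ⟨i, j, lam, hi, hj, hlam, hP⟩ := hPIG n (1 - t) ((2 : ℝ) ^ (t * θ)) a b (by linarith) hx
    ha ha1 hb hb1
  rw [← hgg] at hP
  have c1 : (1 : ℝ) ≤ n.choose i := by exact_mod_cast Nat.choose_pos hi
  have c2 : (1 : ℝ) ≤ n.choose j := by exact_mod_cast Nat.choose_pos hj
  have d1 : (n.choose i : ℝ) ≤ 2 ^ n := by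
    have := Nat.choose_le_two_pow n i
    exact_mod_cast this
  have d2 : (n.choose j : ℝ) ≤ 2 ^ n := by
    have := Nat.choose_le_two_pow n j
    exact_mod_cast this
  obtain ⟨CC, hCC⟩ : ∃ CC : ℝ, CC = (n.choose i : ℝ) * n.choose j := ⟨_, rfl⟩
  have hCC1 : 1 ≤ CC := by rw [hCC]; nlinarith
  have hCC2 : Real.logb 2 CC ≤ 2 * n := by
    rw [Real.logb_le_iff_le_rpow (by norm_num) (by linarith), hCC]
    calc (n.choose i : ℝ) * n.choose j ≤ 2 ^ n * 2 ^ n := by
          apply mul_le_mul d1 d2 (by positivity) (by positivity)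
      _ = (2 : ℝ) ^ (2 * n : ℝ) := by
          rw [← pow_add, ← Real.rpow_natCast]
          congr 1
          push_cast
          ring
  obtain ⟨q, hq⟩ : ∃ q : ℕ, q =
    cnt lam (powersetCard i (univ : Finset (Fin n))) (powersetCard j univ) := ⟨_, rfl⟩
  rw [← hCC, ← hq] at hP
  have hq0 : 0 < q := by
    rcases Nat.eq_zero_or_pos q with h | h
    · rw [h, Nat.cast_zero, mul_zero] at hP
      have : 0 < gg ^ n * CC ^ (1 - t) := by positivity
      linarith
    · exact h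
  have hqR : (0 : ℝ) < q := by exact_mod_cast hq0
  have hqCC : (q : ℝ) ≤ CC := by
    have h1 : q ≤ n.choose i * n.choose j := by
      rw [hq]
      unfold cnt
      refine (Finset.card_filter_le _ _).trans ?_
      rw [Finset.card_product, Finset.card_powersetCard, Finset.card_powersetCard, Finset.card_univ,
        Fintype.card_fin]
    rw [hCC]
    exact_mod_cast h1
  -- logarithms
  have hstar : n * Real.logb 2 gg + (1 - t) * Real.logb 2 CC ≤
      3 * Lg + lam * (t * θ) + Real.logb 2 q := by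
    have h := Real.logb_le_logb_of_le (b := 2) (by norm_num)
      (by have : 0 < gg ^ n * CC ^ (1 - t) := by positivity
          exact this) hP
    rw [Real.logb_mul (by positivity) (by positivity), Real.logb_pow,
      Real.logb_rpow_eq_mul_logb_of_pos (by linarith), Real.logb_mul (by positivity) hqR.ne',
      Real.logb_mul (by positivity) (by positivity), Real.logb_pow, Real.logb_pow, hlx, ← hLg] at h
    push_cast at h
    exact h
  have hqlog : Real.logb 2 q ≤ Real.logb 2 CC :=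
    Real.logb_le_logb_of_le (by norm_num) hqR hqCC
  have e1 : n * (Real.logb 2 NN - t * ε / 4) ≤ n * Real.logb 2 gg :=
    mul_le_mul_of_nonneg_left hlg hn'.le
  have e2 : (n : ℝ) * (t * ε / 4) = Lg := by
    calc (n : ℝ) * (t * ε / 4) = (t * n) * ε / 4 := by ring
      _ = (κ * ε) * Lg / 4 := by rw [htn]; ring
      _ = Lg := by rw [hκε]; ring
  have e3 : 0 ≤ n * Real.logb 2 NN := mul_nonneg hn'.le hlN
  have e4 : t * Real.logb 2 CC ≤ 2 * (κ * Lg) := by
    calc t * Real.logb 2 CC ≤ t * (2 * n) := mul_le_mul_of_nonneg_left hCC2 ht0.le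
      _ = 2 * (κ * Lg) := by rw [← htn]; ring
  have hlamn : (lam : ℝ) ≤ n := by exact_mod_cast hlam
  have e5 : lam * (t * θ) ≤ κ * Θ * Lg := by
    have h1 : θ ≤ Θ := (le_abs_self θ).trans hθ
    calc lam * (t * θ) ≤ lam * (t * Θ) := by
          apply mul_le_mul_of_nonneg_left _ (by positivity)
          exact mul_le_mul_of_nonneg_left h1 ht0.le
      _ ≤ n * (t * Θ) := mul_le_mul_of_nonneg_right hlamn (by positivity)
      _ = κ * Θ * Lg := by
          calc (n : ℝ) * (t * Θ) = (t * n) * Θ := by ring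
            _ = κ * Θ * Lg := by rw [htn]; ring
  have hK : 4 + 2 * κ + κ * Θ ≤ (⌈4 + 2 * κ + κ * Θ⌉₊ : ℝ) := Nat.le_ceil _
  have hA : Real.logb 2 CC ≤ (⌈4 + 2 * κ + κ * Θ⌉₊ : ℝ) * Lg + Real.logb 2 q := by
    have h1 : Real.logb 2 CC ≤ (4 + 2 * κ + κ * Θ) * Lg + Real.logb 2 q := by nlinarith
    have h2 : (4 + 2 * κ + κ * Θ) * Lg ≤ (⌈4 + 2 * κ + κ * Θ⌉₊ : ℝ) * Lg :=
      mul_le_mul_of_nonneg_right hK hLg0.le
    linarith
  have hNI : NI n ⌈4 + 2 * κ + κ * Θ⌉₊ i j lam := by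
    refine ⟨hi, hj, hlam, ?_⟩
    rw [← hq]
    have h1 : Real.logb 2 CC ≤ Real.logb 2 (((n : ℝ) + 1) ^ ⌈4 + 2 * κ + κ * Θ⌉₊ * q) := by
      rw [Real.logb_mul (by positivity) hqR.ne', Real.logb_pow, ← hLg]
      exact hA
    have h2 : CC ≤ ((n : ℝ) + 1) ^ ⌈4 + 2 * κ + κ * Θ⌉₊ * q :=
      (Real.logb_le_logb (by norm_num) (by linarith) (by positivity)).mp h1
    rw [hCC] at h2
    exact_mod_cast h2
  refine ⟨_, ⟨i, j, lam, hNI, rfl⟩, ?_⟩
  -- the value
  have hPhi := Phi_le0 hNB hl hl1 (s := 1 - t) (by linarith) (by linarith) hx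
  rw [← hNN, hlx, show (1 : ℝ) - (1 - t) = t by ring, le_div_iff₀ ht0] at hPhi
  have hb : n * Real.logb 2 NN ≤ 4 * Lg + t * (lam * θ + Real.logb 2 CC) := by nlinarith
  have h4 : 4 * Lg = t * (ε * n) := by
    calc 4 * Lg = (κ * Lg) * ε := by rw [← hκε]; ring
      _ = (t * n) * ε := by rw [htn]
      _ = t * (ε * n) := by ring
  have hfin : t * (n * (Phi l 0 + θ * l - ε)) ≤ t * (lam * θ + Real.logb 2 CC) := by
    have h5 : n * (Phi l 0 * t) ≤ n * (Real.logb 2 NN - l * (t * θ) + 0) :=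
      mul_le_mul_of_nonneg_left hPhi hn'.le
    nlinarith
  have hfin2 := le_of_mul_le_mul_left hfin ht0
  simp only
  rw [← hCC]
  have h6 : Real.logb 2 CC / n + θ * ((lam : ℝ) / n) = (lam * θ + Real.logb 2 CC) / n := by
    field_simp
    ring
  rw [h6, le_div_iff₀ hn']
  linarith

end Run7.h96.IX.T1
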