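import Pool.Agent.Run7.h96.IX.Stm3

set_option autoImplicit false

open Set

namespace Run7.h96.IX.T2

open Run7.h96.IX

theorem pf (f : (ℝ × ℝ) →L[ℝ] ℝ) (p : ℝ × ℝ) :
    f p = f (1, 0) * p.1 + f (0, 1) * p.2 := by
  have h : p = p.1 • ((1 : ℝ), (0 : ℝ)) + p.2 • ((0 : ℝ), (1 : ℝ)) := by
    obtain ⟨a, b⟩ := p
    simp
  conv_lhs => rw [h]
  rw [map_add, map_smul, map_smul, smul_eq_mul, smul_eq_mul]
  ring

theorem t_T2 : S_T2 := by
  intro E l v Θ hE0 hE1 hl0 hl1 hv hΘ1 hΘ2 hsup δ hδ
  by_contra hcon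
  have hcon' : ∀ p ∈ convexHull ℝ E, ¬ (v < p.1 ∧ |p.2 - l| < δ) :=
    fun p hp h => hcon ⟨p, hp, h⟩
  have hO1 : IsOpen ((Prod.fst ⁻¹' (Ioi v) : Set (ℝ × ℝ)) ∩
      (Prod.snd ⁻¹' (Ioo (l - δ) (l + δ)))) :=
    (isOpen_Ioi.preimage continuous_fst).inter (isOpen_Ioo.preimage continuous_snd)
  have hO2 : Convex ℝ ((Prod.fst ⁻¹' (Ioi v) : Set (ℝ × ℝ)) ∩
      (Prod.snd ⁻¹' (Ioo (l - δ) (l + δ)))) :=
    ((convex_Ioi v).linear_preimage (LinearMap.fst ℝ ℝ ℝ)).inter
      ((convex_Ioo (l - δ) (l + δ)).linear_preimage (LinearMap.snd ℝ ℝ ℝ))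
  have hdisj : Disjoint ((Prod.fst ⁻¹' (Ioi v) : Set (ℝ × ℝ)) ∩
      (Prod.snd ⁻¹' (Ioo (l - δ) (l + δ)))) (convexHull ℝ E) := by
    rw [Set.disjoint_left]
    rintro p ⟨h1, h3⟩ hp
    have h3' : l - δ < p.2 ∧ p.2 < l + δ := h3
    refine hcon' p hp ⟨h1, ?_⟩
    rw [abs_lt]
    constructor <;> linarith [h3'.1, h3'.2]
  obtain ⟨f, u, hfO, hfD⟩ := geometric_hahn_banach_open hO2 hO1 (convex_convexHull ℝ E) hdisj
  set A := f (1, 0) with hA
  set C := f (0, 1) with hC
  have hf : ∀ p : ℝ × ℝ, f p = A * p.1 + C * p.2 := pf f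
  have hO : ∀ x : ℝ, v < x → A * x + C * l < u := by
    intro x hx
    have h := hfO (x, l) ⟨hx, by
      change l - δ < l ∧ l < l + δ
      constructor <;> linarith⟩
    rw [hf] at h
    exact h
  have hDD : ∀ d ∈ E, u ≤ A * d.1 + C * d.2 := by
    intro d hd
    have h := hfD d (subset_convexHull ℝ E hd)
    rw [hf] at h
    exact h
  have hA0 : A ≤ 0 := by
    by_contra h
    push Not at h
    have h1 := hO (v + 1 + |u - (A * (v + 1) + C * l)| / A) (by
        have : 0 ≤ |u - (A * (v + 1) + C * l)| / A := by positivity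
        linarith)
    have h2 : A * (v + 1 + |u - (A * (v + 1) + C * l)| / A)
        = A * (v + 1) + |u - (A * (v + 1) + C * l)| := by
      field_simp
    rw [h2] at h1
    have h3 := le_abs_self (u - (A * (v + 1) + C * l))
    linarith
  have hcorner : A * v + C * l ≤ u := by
    apply le_of_forall_pos_le_add
    intro ε hε
    have hpos : 0 < -A + 1 := by linarith
    have hτ : 0 < ε / (-A + 1) := by positivity
    have h1 := hO (v + ε / (-A + 1)) (by linarith)
    have h2 : (-A) * (ε / (-A + 1)) ≤ ε := by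
      have h3 : (-A + 1) * (ε / (-A + 1)) = ε := by field_simp
      nlinarith
    nlinarith
  have hstar : ∀ d ∈ E, A * v + C * l ≤ A * d.1 + C * d.2 := fun d hd => hcorner.trans (hDD d hd)
  have h0 := hstar _ hE0
  have h1 := hstar _ hE1
  simp only [mul_zero, zero_add, add_zero, mul_one] at h0 h1
  rcases hA0.lt_or_eq with hAneg | hAz
  · have hA' : 0 < -A := by linarith
    obtain ⟨r, hr⟩ : ∃ r : ℝ, r = (-C) / (-A) := ⟨_, rfl⟩
    have hCr : C = -(r * (-A)) := by
      rw [hr, div_mul_cancel₀ _ hA'.ne', neg_neg]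
    -- bounds on `r`
    have b1 : 0 ≤ v + r * l := by
      rw [hCr] at h0
      have : 0 ≤ (-A) * (v + r * l) := by linarith
      exact nonneg_of_mul_nonneg_right this hA'
    have b2 : r ≤ v + r * l := by
      rw [hCr] at h1
      have : 0 ≤ (-A) * (v + r * l - r) := by linarith
      have := nonneg_of_mul_nonneg_right this hA'
      linarith
    have hr1 : |r| ≤ Θ := by
      rw [abs_le]
      constructor
      · have : -(v / l) ≤ r := by
          rw [neg_le_iff_add_nonneg, ← mul_le_mul_iff_left₀ hl0, zero_mul, add_mul,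
            div_mul_cancel₀ _ hl0.ne']
          linarith
        linarith
      · have : r ≤ v / (1 - l) := by
          rw [le_div_iff₀ (by linarith)]
          linarith
        linarith
    obtain ⟨p, hp, h⟩ := hsup r hr1
    have h2 := hstar p hp
    rw [hCr] at h2
    have h3 : (-A) * (p.1 + r * p.2) ≤ (-A) * (v + r * l) := by linarith
    have := le_of_mul_le_mul_left h3 hA'
    linarith
  · rw [hAz] at h0 h1
    simp only [zero_mul, zero_add] at h0 h1
    have c1 : C ≤ 0 := by
      by_contra h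
      push Not at h
      have : 0 < C * l := mul_pos h hl0
      linarith
    have c2 : 0 ≤ C := by
      by_contra h
      push Not at h
      have : C * (1 - l) < 0 := mul_neg_of_neg_of_pos h (by linarith)
      linarith
    have hCz : C = 0 := le_antisymm c1 c2
    have h2 := hO (v + 1) (by linarith)
    have h3 := hDD _ hE0
    rw [hAz, hCz] at h2 h3
    simp only [zero_mul, mul_zero, add_zero] at h2 h3
    linarith

end Run7.h96.IX.T2
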