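import Pool.Agent.Run7.h96.IX.Stm3
/-! Project IX, piece T3 (helper617) -/
set_option autoImplicit false

open Finset Filter Topology

namespace Run7.h617.IX
open Run7.h96.IX

theorem t_T3 : S_T3 := by
  intro E h00 hE p hp T hT
  classical
  obtain ⟨ι, hι, z, w, hz, haff, hw, hw1, hwp⟩ := eq_pos_convex_span_of_mem_convexHull hp
  have hcard : Fintype.card ι ≤ 3 := by
    have h1 := haff.card_le_finrank_succ
    have h2 : Module.finrank ℝ (vectorSpan ℝ (Set.range z)) ≤ Module.finrank ℝ (ℝ × ℝ) :=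
      Submodule.finrank_le _
    have h3 : Module.finrank ℝ (ℝ × ℝ) = 2 := by simp
    omega
  have hT0 : (0:ℝ) < T := by exact_mod_cast hT
  let m : ι → ℕ := fun i => ⌊w i * T⌋₊
  have hm1 : ∀ i, (m i : ℝ) ≤ w i * T := fun i => Nat.floor_le (mul_nonneg (hw i).le hT0.le)
  have hm2 : ∀ i, w i * T < m i + 1 := fun i => Nat.lt_floor_add_one _
  have hsum : ∑ i, m i ≤ T := by
    have h1 : ((∑ i, m i : ℕ) : ℝ) ≤ T := by
      push_cast
      calc ∑ i, (m i : ℝ) ≤ ∑ i, w i * T := Finset.sum_le_sum fun i _ => hm1 i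
        _ = T := by rw [← Finset.sum_mul, hw1, one_mul]
    exact_mod_cast h1
  have hc : Fintype.card (Σ i, Fin (m i)) ≤ Fintype.card (Fin T) := by
    rw [Fintype.card_sigma]
    simpa using hsum
  obtain ⟨g⟩ := Function.Embedding.nonempty_of_card_le hc
  let e : Fin T → ℝ × ℝ := Function.extend g (fun a => z a.1) (fun _ => ((0 : ℝ), (0 : ℝ)))
  have he0 : ∀ j, (¬ ∃ a, g a = j) → e j = (0, 0) := fun j hj => Function.extend_apply' _ _ _ hj
  have he1 : ∀ a, e (g a) = z a.1 := fun a => g.injective.extend_apply _ _ a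
  have hsumF : ∀ φ : ℝ × ℝ → ℝ, φ (0, 0) = 0 → ∑ j, φ (e j) = ∑ i, (m i : ℝ) * φ (z i) := by
    intro φ hφ
    have h1 : ∑ j ∈ Finset.univ.map g, φ (e j) = ∑ j, φ (e j) := by
      apply Finset.sum_subset (Finset.subset_univ _)
      intro j _ hj
      rw [he0 j (fun ⟨a, ha⟩ => hj (Finset.mem_map.2 ⟨a, Finset.mem_univ _, ha⟩)), hφ]
    rw [← h1, Finset.sum_map]
    simp only [he1]
    rw [Fintype.sum_sigma]
    refine Finset.sum_congr rfl fun i _ => ?_
    simp
  have herr : ∀ x : ι → ℝ, (∀ i, 0 ≤ x i ∧ x i ≤ 2) →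
      |(∑ i, (m i : ℝ) * x i) / T - ∑ i, w i * x i| ≤ 6 / T := by
    intro x hx
    have e1 : (∑ i, (m i : ℝ) * x i) / T - ∑ i, w i * x i =
        (∑ i, ((m i : ℝ) - w i * T) * x i) / T := by
      rw [eq_div_iff hT0.ne', sub_mul, div_mul_cancel₀ _ hT0.ne', Finset.sum_mul,
        ← Finset.sum_sub_distrib]
      refine Finset.sum_congr rfl fun i _ => ?_
      ring
    rw [e1, abs_div, abs_of_pos hT0]
    apply div_le_div_of_nonneg_right _ hT0.le
    calc |∑ i, ((m i : ℝ) - w i * T) * x i| ≤ ∑ i, |((m i : ℝ) - w i * T) * x i| :=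
          Finset.abs_sum_le_sum_abs _ _
      _ ≤ ∑ i : ι, (2:ℝ) := Finset.sum_le_sum fun i _ => by
          rw [abs_mul, abs_of_nonneg (hx i).1]
          have h1 : |(m i : ℝ) - w i * T| ≤ 1 :=
            abs_le.2 ⟨by linarith [hm2 i], by linarith [hm1 i]⟩
          calc |(m i : ℝ) - w i * T| * x i ≤ 1 * 2 :=
                mul_le_mul h1 (hx i).2 (hx i).1 zero_le_one
            _ = 2 := one_mul 2
      _ = 2 * Fintype.card ι := by simp [mul_comm]
      _ ≤ 6 := by
          have h1 : (Fintype.card ι : ℝ) ≤ 3 := by exact_mod_cast hcard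
          linarith
  have hzE : ∀ i, z i ∈ E := fun i => hz ⟨i, rfl⟩
  refine ⟨e, ?_, ?_, ?_⟩
  · intro j
    by_cases h : ∃ a, g a = j
    · obtain ⟨a, rfl⟩ := h
      rw [he1]
      exact hzE _
    · rw [he0 j h]
      exact h00
  · have h1 := hsumF Prod.fst rfl
    have h2 : p.1 = ∑ i, w i * (z i).1 := by
      rw [← hwp, Prod.fst_sum]
      rfl
    rw [h1, h2]
    exact herr (fun i => (z i).1) fun i => ⟨(hE _ (hzE i)).1, (hE _ (hzE i)).2.1⟩
  · have h1 := hsumF Prod.snd rfl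
    have h2 : p.2 = ∑ i, w i * (z i).2 := by
      rw [← hwp, Prod.snd_sum]
      rfl
    rw [h1, h2]
    exact herr (fun i => (z i).2) fun i => ⟨(hE _ (hzE i)).2.2.1,
      (hE _ (hzE i)).2.2.2.trans one_le_two⟩

end Run7.h617.IX
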