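import Pool.Agent.Run7.h96.IX.Stm3
/-! Project IX, piece T4 (helper617) -/
set_option autoImplicit false

open Finset Filter Topology

namespace Run7.h617.IX
open Run7.h96.IX

theorem ach_mul (hMUL : S_MUL) {n P K lam n' P' K' lam' : ℕ} (h : Ach n P K lam)
    (h' : Ach n' P' K' lam') : Ach (n + n') (P * P') (K * K') (lam + lam') := by
  obtain ⟨A, B, hA, hB, hc⟩ := h
  obtain ⟨A', B', hA', hB', hc'⟩ := h'
  obtain ⟨A'', B'', h1, h2, h3⟩ := hMUL n n' lam lam' A B A' B'
  exact ⟨A'', B'', by rw [h1, hA, hA'], by rw [h2, hB, hB'], (Nat.mul_le_mul hc hc').trans h3⟩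

theorem cnt_comm {n : ℕ} (lam : ℕ) (A B : Finset (Finset (Fin n))) :
    cnt lam A B = cnt lam B A := by
  unfold cnt
  refine Finset.card_bij (fun p _ => (p.2, p.1)) ?_ ?_ ?_
  · intro p hp
    simp only [Finset.mem_filter, Finset.mem_product] at hp ⊢
    exact ⟨⟨hp.1.2, hp.1.1⟩, by rw [Finset.inter_comm]; exact hp.2⟩
  · intro p _ q _ h
    simp only [Prod.mk.injEq] at h
    exact Prod.ext h.2 h.1
  · intro q hq
    refine ⟨(q.2, q.1), ?_, rfl⟩
    simp only [Finset.mem_filter, Finset.mem_product] at hq ⊢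
    exact ⟨⟨hq.1.2, hq.1.1⟩, by rw [Finset.inter_comm]; exact hq.2⟩

theorem one_class (hMUL : S_MUL) (n K i j lam : ℕ) (h : NI n K i j lam) :
    ∃ P : ℕ, Ach (n + n) P (n.choose i * n.choose j) (2 * lam) ∧
      (n.choose i * n.choose j) ^ 2 ≤ P * (n + 1) ^ (2 * K) := by
  obtain ⟨-, -, -, h4⟩ := h
  obtain ⟨A'', B'', h1, h2, h3⟩ := hMUL n n lam lam (powersetCard i univ) (powersetCard j univ)
    (powersetCard j univ) (powersetCard i univ)
  rw [cnt_comm lam (powersetCard j univ) (powersetCard i univ), show lam + lam = 2 * lam by ring]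
    at h3
  refine ⟨_, ⟨A'', B'', ?_, ?_, h3⟩, ?_⟩
  · rw [h1, card_powersetCard, card_powersetCard, Finset.card_univ, Fintype.card_fin]
  · rw [h2, card_powersetCard, card_powersetCard, Finset.card_univ, Fintype.card_fin, mul_comm]
  · refine (Nat.pow_le_pow_left h4 2).trans (le_of_eq ?_)
    ring

theorem ach_one (m : ℕ) : Ach m 1 1 0 := by
  refine ⟨{∅}, {∅}, rfl, rfl, ?_⟩
  unfold cnt
  rw [Nat.one_le_iff_ne_zero, ← Nat.pos_iff_ne_zero, Finset.card_pos]
  exact ⟨(∅, ∅), by simp⟩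

theorem t_T4 : S_MUL → S_T4 := by
  intro hMUL n K T
  induction T with
  | zero =>
    intro i j lam _
    refine ⟨1, ?_, ?_⟩
    · simp only [Finset.univ_eq_empty, Finset.prod_empty, Finset.sum_empty]
      exact ach_one _
    · simp
  | succ T ih =>
    intro i j lam h
    obtain ⟨P, hP, hP2⟩ := ih (fun t => i t.castSucc) (fun t => j t.castSucc)
      (fun t => lam t.castSucc) (fun t => h t.castSucc)
    obtain ⟨Q, hQ, hQ2⟩ := one_class hMUL n K _ _ _ (h (Fin.last T))
    refine ⟨P * Q, ?_, ?_⟩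
    · have e : (T + 1) * (2 * n) = T * (2 * n) + (n + n) := by ring
      rw [e, Fin.prod_univ_castSucc, Fin.sum_univ_castSucc]
      exact ach_mul hMUL hP hQ
    · rw [Fin.prod_univ_castSucc, mul_pow]
      refine (Nat.mul_le_mul hP2 hQ2).trans (le_of_eq ?_)
      ring

end Run7.h617.IX
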